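import Mathlib
import Pool.Agent.D0H86.PW.Stm

/-!
# Project PW, module PE (helper2): the trials
-/

set_option autoImplicit false

namespace Pool.Agent.D0H2.PW

open Finset MeasureTheory ProbabilityTheory Pool.Agent.D0H86.PW

variable {Ω : Type} [MeasurableSpace Ω] {μ : Measure Ω} [IsProbabilityMeasure μ]
  {a : ℕ → Ω → ℕ} {H : ℕ → ℕ}

theorem null_of_out (hM : Model μ a H) (k j : ℕ) (hj : j ∉ Ico (2 ^ k) (2 ^ k + H k)) :
    μ {ω | a k ω = j} = 0 := by
  have h := hM.unif k j
  rw [if_neg (by rwa [mem_Ico] at hj)] at h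
  rwa [measureReal_eq_zero_iff] at h

theorem out_null (hM : Model μ a H) (k : ℕ) :
    μ {ω | a k ω ∉ Ico (2 ^ k) (2 ^ k + H k)} = 0 := by
  have h : {ω | a k ω ∉ Ico (2 ^ k) (2 ^ k + H k)} ⊆
      ⋃ j : ℕ, {ω | a k ω = j ∧ j ∉ Ico (2 ^ k) (2 ^ k + H k)} := by
    intro ω hω
    exact Set.mem_iUnion.mpr ⟨a k ω, rfl, hω⟩
  refine measure_mono_null h (measure_iUnion_null fun j => ?_)
  by_cases hj : j ∈ Ico (2 ^ k) (2 ^ k + H k)
  · have : {ω | a k ω = j ∧ j ∉ Ico (2 ^ k) (2 ^ k + H k)} = ∅ := by
      ext ω; simp only [Set.mem_ofPred_eq, Set.mem_empty_iff_false, iff_false]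
      exact fun h => h.2 hj
    rw [this]; exact measure_empty
  · exact measure_mono_null (fun ω hω => hω.1) (null_of_out hM k j hj)

theorem H_pos (hM : Model μ a H) (k : ℕ) : 0 < H k := by
  by_contra h
  have h0 : H k = 0 := by omega
  have h1 := out_null hM k
  have h2 : {ω | a k ω ∉ Ico (2 ^ k) (2 ^ k + H k)} = Set.univ := by
    ext ω
    simp [h0]
  rw [h2, measure_univ] at h1
  exact one_ne_zero h1

open Classical in
/-- the weight of the past -/
noncomputable def Fw (Suc : ℕ → (ℕ → ℕ) → Prop) (X : Finset ℕ) (k : ℕ) (b : ℕ → ℕ) : ℝ :=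
  ∏ u ∈ X.filter (· < k), (if Suc u b then (1 / 2 : ℝ) else 1)

theorem Fw_nonneg (Suc : ℕ → (ℕ → ℕ) → Prop) (X : Finset ℕ) (k : ℕ) (b : ℕ → ℕ) :
    0 ≤ Fw Suc X k b := by
  unfold Fw
  refine prod_nonneg fun u _ => ?_
  split_ifs <;> norm_num

theorem Fw_update (Suc : ℕ → (ℕ → ℕ) → Prop)
    (hloc : ∀ u b b', (∀ k ≤ u, b k = b' k) → Suc u b → Suc u b') (X : Finset ℕ) (k T : ℕ)
    (b : ℕ → ℕ) : Fw Suc X k (Function.update b k T) = Fw Suc X k b := by
  classical
  unfold Fw
  refine prod_congr rfl fun u hu => ?_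
  have huk : u < k := (mem_filter.mp hu).2
  have h : Suc u (Function.update b k T) ↔ Suc u b := by
    constructor
    · refine hloc u _ _ fun i hi => ?_
      rw [Function.update_of_ne (by omega)]
    · refine hloc u _ _ fun i hi => ?_
      rw [Function.update_of_ne (by omega)]
  simp only [h]

open Classical in
theorem Fw_succ (Suc : ℕ → (ℕ → ℕ) → Prop) (X : Finset ℕ) (k : ℕ) (b : ℕ → ℕ) :
    Fw Suc X (k + 1) b = Fw Suc X k b * (if k ∈ X then (if Suc k b then (1 / 2 : ℝ) else 1) else 1) := by
  unfold Fw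
  by_cases hk : k ∈ X
  · have h : X.filter (· < k + 1) = insert k (X.filter (· < k)) := by
      ext u
      simp only [mem_filter, mem_insert]
      constructor
      · rintro ⟨h1, h2⟩
        by_cases h3 : u = k
        · exact Or.inl h3
        · exact Or.inr ⟨h1, by omega⟩
      · rintro (rfl | ⟨h1, h2⟩)
        · exact ⟨hk, by omega⟩
        · exact ⟨h1, by omega⟩
    rw [h, prod_insert (by simp), if_pos hk, mul_comm]
  · have h : X.filter (· < k + 1) = X.filter (· < k) := by
      ext u
      simp only [mem_filter]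
      constructor
      · rintro ⟨h1, h2⟩
        have h3 : u ≠ k := fun h => hk (h ▸ h1)
        exact ⟨h1, by omega⟩
      · rintro ⟨h1, h2⟩
        exact ⟨h1, by omega⟩
    rw [h, if_neg hk, mul_one]

theorem card_succ (X : Finset ℕ) (k : ℕ) :
    (X.filter (k ≤ ·)).card = (X.filter (k + 1 ≤ ·)).card + (if k ∈ X then 1 else 0) := by
  by_cases hk : k ∈ X
  · have h : X.filter (k ≤ ·) = insert k (X.filter (k + 1 ≤ ·)) := by
      ext u
      simp only [mem_filter, mem_insert]
      constructor
      · rintro ⟨h1, h2⟩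
        by_cases h3 : u = k
        · exact Or.inl h3
        · exact Or.inr ⟨h1, by omega⟩
      · rintro (rfl | ⟨h1, h2⟩)
        · exact ⟨hk, le_rfl⟩
        · exact ⟨h1, by omega⟩
    rw [h, card_insert_of_notMem (by simp), if_pos hk]
  · have h : X.filter (k ≤ ·) = X.filter (k + 1 ≤ ·) := by
      ext u
      simp only [mem_filter]
      constructor
      · rintro ⟨h1, h2⟩
        have h3 : u ≠ k := fun h => hk (h ▸ h1)
        exact ⟨h1, by omega⟩
      · rintro ⟨h1, h2⟩
        exact ⟨h1, by omega⟩
    rw [h, if_neg hk, add_zero]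

/-- the law of the first `K` values -/
theorem law (hM : Model μ a H) (K : ℕ) (b : ℕ → ℕ) (hb : Val H b) :
    μ.real {ω | ∀ i < K, a i ω = b i} = ∏ i ∈ range K, ((H i : ℝ))⁻¹ := by
  have h := hM.indep.measure_inter_preimage_eq_mul (range K) (sets := fun i => {b i})
    (fun i _ => measurableSet_singleton _)
  have h1 : {ω | ∀ i < K, a i ω = b i} = ⋂ i ∈ range K, a i ⁻¹' {b i} := by
    ext ω
    simp
  rw [measureReal_def, h1, h, ENNReal.toReal_prod]
  refine prod_congr rfl fun i _ => ?_
  have h2 := hM.unif i (b i)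
  rw [if_pos (hb i)] at h2
  exact h2

theorem t_PE : S_PE := by
  classical
  intro Ω _ μ _ a H hM Suc hloc X δ hδ0 hδ1 hdens m
  have hH : ∀ k, (0 : ℝ) < H k := fun k => by exact_mod_cast H_pos hM k
  have hc0 : (0 : ℝ) ≤ 1 - δ / 2 := by linarith
  set Bad : (ℕ → ℕ) → Prop := fun b => (X.filter (fun u => Suc u b)).card < m with hBad
  set K : ℕ := X.sup id + 1 with hK
  have hXK : ∀ u ∈ X, u < K := fun u hu => by
    have : id u ≤ X.sup id := le_sup (f := id) hu
    simp only [id] at this
    omega
  have key : ∀ d k : ℕ, k + d = K → ∀ b, Val H b →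
      μ.real {ω | (∀ i < k, a i ω = b i) ∧ Bad (fun j => a j ω)} ≤
        (∏ i ∈ range k, ((H i : ℝ))⁻¹) * (2 ^ m * Fw Suc X k b *
          (1 - δ / 2) ^ (X.filter (k ≤ ·)).card) := by
    intro d
    induction d with
    | zero =>
      intro k hk b hb
      have hkK : k = K := by omega
      subst hkK
      have hfil : X.filter (K ≤ ·) = ∅ := by
        rw [filter_eq_empty_iff]
        intro u hu
        have := hXK u hu
        omega
      have hfil2 : X.filter (· < K) = X := filter_true_of_mem hXK
      rw [hfil, card_empty, pow_zero, mul_one]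
      by_cases hbad : Bad b
      · have h1 : μ.real {ω | (∀ i < K, a i ω = b i) ∧ Bad (fun j => a j ω)} ≤
            ∏ i ∈ range K, ((H i : ℝ))⁻¹ := by
          rw [← law hM K b hb]
          exact measureReal_mono (fun ω hω => hω.1)
        have h2 : 1 ≤ 2 ^ m * Fw Suc X K b := by
          have h3 : Fw Suc X K b = (1 / 2 : ℝ) ^ (X.filter (fun u => Suc u b)).card := by
            unfold Fw
            rw [hfil2, prod_ite, prod_const, prod_const_one, mul_one]
          rw [h3]
          have h4 : (1 / 2 : ℝ) ^ m ≤ (1 / 2 : ℝ) ^ (X.filter (fun u => Suc u b)).card :=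
            pow_le_pow_of_le_one (by norm_num) (by norm_num) (le_of_lt hbad)
          calc (1 : ℝ) = 2 ^ m * (1 / 2 : ℝ) ^ m := by
                rw [← mul_pow]; norm_num
            _ ≤ _ := by gcongr
        have h5 : 0 ≤ ∏ i ∈ range K, ((H i : ℝ))⁻¹ := prod_nonneg fun i _ => by positivity
        calc _ ≤ ∏ i ∈ range K, ((H i : ℝ))⁻¹ := h1
          _ ≤ _ := le_mul_of_one_le_right h5 h2
      · have h1 : {ω | (∀ i < K, a i ω = b i) ∧ Bad (fun j => a j ω)} = ∅ := by
          ext ω
          simp only [Set.mem_ofPred_eq, Set.mem_empty_iff_false, iff_false]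
          rintro ⟨h2, h3⟩
          apply hbad
          have h4 : X.filter (fun u => Suc u b) = X.filter (fun u => Suc u (fun j => a j ω)) := by
            refine filter_congr fun u hu => ?_
            have huK := hXK u hu
            constructor
            · exact hloc u _ _ fun i hi => (h2 i (by omega)).symm
            · exact hloc u _ _ fun i hi => h2 i (by omega)
          simp only [hBad]
          rw [h4]
          exact h3
        rw [h1]
        simp only [measureReal_empty]
        have h5 : 0 ≤ ∏ i ∈ range K, ((H i : ℝ))⁻¹ := prod_nonneg fun i _ => by positivity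
        have h6 := Fw_nonneg Suc X K b
        positivity
    | succ d ih =>
      intro k hk b hb
      have hval : ∀ T ∈ Ico (2 ^ k) (2 ^ k + H k), Val H (Function.update b k T) := by
        intro T hT j
        by_cases hj : j = k
        · subst hj
          rw [Function.update_self]
          exact mem_Ico.mp hT
        · rw [Function.update_of_ne hj]
          exact hb j
      have hstep : μ.real {ω | (∀ i < k, a i ω = b i) ∧ Bad (fun j => a j ω)} ≤
          ∑ T ∈ Ico (2 ^ k) (2 ^ k + H k), μ.real {ω | (∀ i < k + 1, a i ω =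
            Function.update b k T i) ∧ Bad (fun j => a j ω)} := by
        have hsub : {ω | (∀ i < k, a i ω = b i) ∧ Bad (fun j => a j ω)} ⊆
            {ω | a k ω ∉ Ico (2 ^ k) (2 ^ k + H k)} ∪
            ⋃ T ∈ Ico (2 ^ k) (2 ^ k + H k), {ω | (∀ i < k + 1, a i ω =
              Function.update b k T i) ∧ Bad (fun j => a j ω)} := by
          intro ω hω
          by_cases h1 : a k ω ∈ Ico (2 ^ k) (2 ^ k + H k)
          · refine Or.inr (Set.mem_iUnion₂.mpr ⟨a k ω, h1, fun i hi => ?_, hω.2⟩)
            by_cases hik : i = k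
            · subst hik; rw [Function.update_self]
            · rw [Function.update_of_ne hik]; exact hω.1 i (by omega)
          · exact Or.inl h1
        calc _ ≤ μ.real ({ω | a k ω ∉ Ico (2 ^ k) (2 ^ k + H k)} ∪
            ⋃ T ∈ Ico (2 ^ k) (2 ^ k + H k), {ω | (∀ i < k + 1, a i ω =
              Function.update b k T i) ∧ Bad (fun j => a j ω)}) := measureReal_mono hsub
          _ ≤ μ.real {ω | a k ω ∉ Ico (2 ^ k) (2 ^ k + H k)} + μ.real (⋃ T ∈ Ico (2 ^ k)
            (2 ^ k + H k), {ω | (∀ i < k + 1, a i ω =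
              Function.update b k T i) ∧ Bad (fun j => a j ω)}) := measureReal_union_le _ _
          _ ≤ 0 + ∑ T ∈ Ico (2 ^ k) (2 ^ k + H k), μ.real {ω | (∀ i < k + 1, a i ω =
            Function.update b k T i) ∧ Bad (fun j => a j ω)} := by
              gcongr
              · rw [measureReal_def, out_null hM k]; simp
              · exact measureReal_biUnion_finset_le _ _
          _ = _ := zero_add _
      have hsum : ∑ T ∈ Ico (2 ^ k) (2 ^ k + H k),
          (if k ∈ X then (if Suc k (Function.update b k T) then (1 / 2 : ℝ) else 1) else 1) ≤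
          H k * (1 - δ / 2) ^ (if k ∈ X then 1 else 0) := by
        by_cases hkX : k ∈ X
        · simp only [if_pos hkX, pow_one]
          rw [sum_ite, sum_const, sum_const]
          have h1 := hdens k hkX b hb
          have h2 : (((Ico (2 ^ k) (2 ^ k + H k)).filter
              (fun T => Suc k (Function.update b k T))).card : ℝ) +
              (((Ico (2 ^ k) (2 ^ k + H k)).filter
              (fun T => ¬ Suc k (Function.update b k T))).card : ℝ) = H k := by
            rw [← Nat.cast_add, card_filter_add_card_filter_not, Nat.card_Ico]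
            simp
          simp only [nsmul_eq_mul, mul_one]
          nlinarith
        · simp only [if_neg hkX, pow_zero, mul_one, sum_const, Nat.card_Ico, nsmul_eq_mul]
          simp
      have hP : 0 ≤ ∏ i ∈ range k, ((H i : ℝ))⁻¹ := prod_nonneg fun i _ => by positivity
      have hF := Fw_nonneg Suc X k b
      calc _ ≤ ∑ T ∈ Ico (2 ^ k) (2 ^ k + H k), μ.real {ω | (∀ i < k + 1, a i ω =
            Function.update b k T i) ∧ Bad (fun j => a j ω)} := hstep
        _ ≤ ∑ T ∈ Ico (2 ^ k) (2 ^ k + H k), (∏ i ∈ range (k + 1), ((H i : ℝ))⁻¹) *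
            (2 ^ m * Fw Suc X (k + 1) (Function.update b k T) *
              (1 - δ / 2) ^ (X.filter (k + 1 ≤ ·)).card) :=
          sum_le_sum fun T hT => ih (k + 1) (by omega) _ (hval T hT)
        _ = ((∏ i ∈ range k, ((H i : ℝ))⁻¹) * (2 ^ m * Fw Suc X k b *
              (1 - δ / 2) ^ (X.filter (k + 1 ≤ ·)).card)) * (H k : ℝ)⁻¹ *
            ∑ T ∈ Ico (2 ^ k) (2 ^ k + H k),
          (if k ∈ X then (if Suc k (Function.update b k T) then (1 / 2 : ℝ) else 1) else 1) := by
          rw [mul_sum]
          refine sum_congr rfl fun T _ => ?_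
          rw [Fw_succ, Fw_update Suc hloc, prod_range_succ]
          ring
        _ ≤ ((∏ i ∈ range k, ((H i : ℝ))⁻¹) * (2 ^ m * Fw Suc X k b *
              (1 - δ / 2) ^ (X.filter (k + 1 ≤ ·)).card)) * (H k : ℝ)⁻¹ *
            (H k * (1 - δ / 2) ^ (if k ∈ X then 1 else 0)) := by
          have := (hH k).le
          gcongr
        _ = _ := by
          rw [card_succ X k, pow_add]
          have := (hH k).ne'
          field_simp
  have hb0 : Val H (fun k => 2 ^ k) := fun k => ⟨le_rfl, by
    have := H_pos hM k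
    show 2 ^ k < 2 ^ k + H k
    omega⟩
  have h := key K 0 (by omega) _ hb0
  have h1 : X.filter (0 ≤ ·) = X := filter_true_of_mem fun _ _ => Nat.zero_le _
  have h2 : Fw Suc X 0 (fun k => 2 ^ k) = 1 := by
    unfold Fw
    have : X.filter (· < 0) = ∅ := by simp
    rw [this, prod_empty]
  rw [h1, h2, range_zero, prod_empty, one_mul, mul_one] at h
  have h3 : {ω | (X.filter (fun u => Suc u (fun k => a k ω))).card < m} =
      {ω | (∀ i < 0, a i ω = (fun k => 2 ^ k) i) ∧ Bad (fun j => a j ω)} := by
    ext ω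
    simp [hBad]
  convert h using 3

end Pool.Agent.D0H2.PW
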