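import Mathlib
import Pool.Agent.D0H86.PW.Stm
import Pool.Agent.W65.CS.R2

/-!
# Project PW, module R2B (helper2)
-/

set_option autoImplicit false

namespace Pool.Agent.D0H2.PW

open Finset Pool.Agent.D0H86.PW

theorem t_R2B : S_R2B := by
  intro ε hε
  obtain ⟨C, hC, h⟩ := Pool.Agent.W65.CS.R2_bound ε hε
  refine ⟨C, by linarith, fun m N hN hm F hF => ?_⟩
  have h1 : F.card ≤ (Pool.Agent.W65.CS.R2 m).card := by
    apply card_le_card_of_injOn (fun p => ((p.1 : ℤ), (p.2 : ℤ)))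
    · intro p hp
      have := hF p hp
      rw [mem_coe, Pool.Agent.W65.CS.mem_R2]
      exact_mod_cast this
    · intro p _ q _ hpq
      simp only [Prod.mk.injEq, Nat.cast_inj] at hpq
      exact Prod.ext hpq.1 hpq.2
  calc (F.card : ℝ) ≤ ((Pool.Agent.W65.CS.R2 m).card : ℝ) := by exact_mod_cast h1
    _ ≤ C * (N : ℝ) ^ ε := h m N hm hN

end Pool.Agent.D0H2.PW
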